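import Pool.Agent.H85.KS2.Targets
import Pool.Agent.H4.KS.HP

/-!
# MP_ff41bc_an, module HP2: the high part in `l^2`
-/

set_option autoImplicit false

open scoped BigOperators
open Finset MeasureTheory

namespace Pool.Agent.H14.KS2

open Pool.Agent.H98.KS Pool.Agent.H85.KS2 Pool.Agent.H4.KS

theorem ks2_HP2 (hME : T_ME) (hGB : T_GB) (hINT2 : T_INT2) : T_HP2 := by
  intro k d hk hkd
  obtain ⟨Cg, hCg⟩ := hGB k hk
  obtain ⟨hBB, C2, hC2, hI⟩ := hINT2 k d hk hkd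
  obtain ⟨C1, hC1, hM⟩ := hME k Cg hk hCg d (by omega)
  refine ⟨(2 * C1 * C2) ^ 2, by positivity, fun Y F S j hY => ?_⟩
  obtain ⟨Qm, hQm⟩ : ∃ Qm, Qm = S.sup (fun x => Qx (2 ^ j x)) := ⟨_, rfl⟩
  obtain ⟨I, hIdef⟩ : ∃ I : Finset ((_ : ℕ) × ℕ), I = (Finset.Icc 1 Qm).sigma fun q => res q :=
    ⟨_, rfl⟩
  obtain ⟨G, hG⟩ : ∃ G : ((_ : ℕ) × ℕ) → ℝ → (Fin d → ℤ) → ℝ, G = fun i κ x =>
    ‖KF k F (2 ^ j x) (th k (2 ^ j x) i.2 i.1 κ) x‖ / ((2 : ℝ) ^ j x) ^ d := ⟨_, rfl⟩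
  obtain ⟨g, hg⟩ : ∃ g : ((_ : ℕ) × ℕ) → ℝ → (Fin d → ℤ) → ℝ, g = fun i κ x =>
    Set.indicator {κ : ℝ | big (2 ^ j x) i.1 κ} (fun κ => G i κ x) κ := ⟨_, rfl⟩
  have hGc : ∀ i x, Continuous fun κ => G i κ x := by
    intro i x
    rw [hG]
    exact (hp_cont k (2 ^ j x) F x i.2 i.1).div_const _
  have hmem : ∀ i ∈ I, 1 ≤ i.1 ∧ i.1 ≤ Qm ∧ i.2 ∈ res i.1 := by
    intro i hi
    rw [hIdef, Finset.mem_sigma, Finset.mem_Icc] at hi
    exact ⟨hi.1.1, hi.1.2, hi.2⟩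
  have hdual := hp_dual S I (fun i => {κ : ℝ | ¬ low k Y i.1 κ}) g (fun i => BB k d i.1)
    (C1 * √(F.card : ℝ)) (by positivity) (fun i hi x hx => by
      rw [hg]
      exact hp_big_int (hGc i x) (2 ^ j x) i.1)
    (fun i hi => hBB i.1 (hmem i hi).1) (fun i _ κ => hp_BB_nonneg k d i.1 κ)
    (fun i hi κ => by
      classical
      obtain ⟨h1, -, h2⟩ := hmem i hi
      have hcop : IsCoprime (i.2 : ℤ) (i.1 : ℤ) := by
        unfold res at h2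
        exact Nat.isCoprime_iff_coprime.2 (Finset.mem_filter.1 h2).2
      have h3 := hM i.1 i.2 κ F (S.filter fun x => big (2 ^ j x) i.1 κ) j h1 hcop
        fun x hx => (Finset.mem_filter.1 hx).2
      have h4 : ∑ x ∈ S, (g i κ x) ^ 2 =
          ∑ x ∈ S.filter (fun x => big (2 ^ j x) i.1 κ), (G i κ x) ^ 2 := by
        rw [Finset.sum_filter]
        refine Finset.sum_congr rfl fun x _ => ?_
        rw [hg]
        simp only []
        by_cases h5 : big (2 ^ j x) i.1 κ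
        · rw [if_pos h5, Set.indicator_of_mem (by exact h5)]
        · rw [if_neg h5, Set.indicator_of_notMem (by exact h5)]
          simp
      rw [h4]
      have h5 : (C1 * √(F.card : ℝ) * BB k d i.1 κ) ^ 2 = (C1 * BB k d i.1 κ) ^ 2 * F.card := by
        have h6 : √(F.card : ℝ) ^ 2 = F.card := Real.sq_sqrt (Nat.cast_nonneg _)
        calc (C1 * √(F.card : ℝ) * BB k d i.1 κ) ^ 2 =
              (C1 * BB k d i.1 κ) ^ 2 * √(F.card : ℝ) ^ 2 := by ring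
          _ = _ := by rw [h6]
      rw [h5]
      rw [hG]
      exact h3)
  have hleft : ∀ x ∈ S, ∑ i ∈ I, ∫ κ in {κ : ℝ | ¬ low k Y i.1 κ}, g i κ x =
      ∑ q ∈ Finset.Icc 1 (Qx (2 ^ j x)), ∑ a ∈ res q,
        ∫ κ in {κ : ℝ | |κ| ≤ (((2 ^ j x : ℕ) : ℝ)) ^ ((1 : ℝ) / 20) ∧ ¬ low k Y q κ},
        ‖KF k F (2 ^ j x) (th k (2 ^ j x) a q κ) x‖ / ((2 : ℝ) ^ j x) ^ d := by
    intro x hx
    rw [hIdef, Finset.sum_sigma]
    have h1 : Finset.Icc 1 (Qx (2 ^ j x)) ⊆ Finset.Icc 1 Qm := by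
      apply Finset.Icc_subset_Icc le_rfl
      rw [hQm]
      exact Finset.le_sup (f := fun x => Qx (2 ^ j x)) hx
    have h2 : ∀ q ∈ Finset.Icc 1 Qm, ∀ a ∈ res q,
        ∫ κ in {κ : ℝ | ¬ low k Y q κ}, g ⟨q, a⟩ κ x =
        if q ∈ Finset.Icc 1 (Qx (2 ^ j x)) then
          ∫ κ in {κ : ℝ | |κ| ≤ (((2 ^ j x : ℕ) : ℝ)) ^ ((1 : ℝ) / 20) ∧ ¬ low k Y q κ},
            ‖KF k F (2 ^ j x) (th k (2 ^ j x) a q κ) x‖ / ((2 : ℝ) ^ j x) ^ d else 0 := by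
      intro q hq a _
      rw [hg, hG]
      exact hp_big_split (2 ^ j x) (Finset.mem_Icc.1 hq).1 Y
    rw [Finset.sum_congr rfl fun q hq => Finset.sum_congr rfl fun a ha => h2 q hq a ha]
    symm
    rw [← Finset.sum_subset h1]
    · refine Finset.sum_congr rfl fun q hq => Finset.sum_congr rfl fun a _ => ?_
      rw [if_pos hq]
    · intro q _ hq
      exact Finset.sum_eq_zero fun a _ => by rw [if_neg hq]
  rw [Finset.sum_congr rfl fun x hx => by rw [hleft x hx]] at hdual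
  refine hdual.trans ?_
  have hW : ∑ i ∈ I, ∫ κ in {κ : ℝ | ¬ low k Y i.1 κ}, BB k d i.1 κ ≤
      2 * (C2 * Y ^ (2 - (d : ℝ) / k)) := by
    rw [hIdef, Finset.sum_sigma]
    calc ∑ q ∈ Finset.Icc 1 Qm, ∑ a ∈ res q, ∫ κ in {κ : ℝ | ¬ low k Y q κ}, BB k d q κ
        ≤ ∑ q ∈ Finset.Icc 1 Qm, 2 * ((q : ℝ) * ∫ κ in {κ : ℝ | ¬ low k Y q κ}, BB k d q κ) := by
          refine Finset.sum_le_sum fun q hq => ?_
          rw [Finset.sum_const, nsmul_eq_mul]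
          have h0 : 0 ≤ ∫ κ in {κ : ℝ | ¬ low k Y q κ}, BB k d q κ :=
            integral_nonneg fun κ => hp_BB_nonneg k d q κ
          calc _ ≤ (2 * (q : ℝ)) * ∫ κ in {κ : ℝ | ¬ low k Y q κ}, BB k d q κ :=
                mul_le_mul_of_nonneg_right (hp_res q (Finset.mem_Icc.1 hq).1) h0
            _ = _ := by ring
      _ = 2 * ∑ q ∈ Finset.Icc 1 Qm, (q : ℝ) * ∫ κ in {κ : ℝ | ¬ low k Y q κ}, BB k d q κ := by
          rw [Finset.mul_sum]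
      _ ≤ _ := by
          have := hI Y Qm hY
          linarith
  have hW0 : 0 ≤ ∑ i ∈ I, ∫ κ in {κ : ℝ | ¬ low k Y i.1 κ}, BB k d i.1 κ :=
    Finset.sum_nonneg fun i _ => integral_nonneg fun κ => hp_BB_nonneg k d i.1 κ
  calc (C1 * √(F.card : ℝ) * ∑ i ∈ I, ∫ κ in {κ : ℝ | ¬ low k Y i.1 κ}, BB k d i.1 κ) ^ 2
      ≤ (C1 * √(F.card : ℝ) * (2 * (C2 * Y ^ (2 - (d : ℝ) / k)))) ^ 2 := by
        refine pow_le_pow_left₀ (by positivity) ?_ 2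
        exact mul_le_mul_of_nonneg_left hW (by positivity)
    _ = (2 * C1 * C2) ^ 2 * (Y ^ (2 - (d : ℝ) / k)) ^ 2 * √(F.card : ℝ) ^ 2 := by ring
    _ = _ := by rw [Real.sq_sqrt (Nat.cast_nonneg _)]

end Pool.Agent.H14.KS2
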