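import Pool.Agent.H85.KS2.Targets

/-!
# MP_ff41bc_an, module ZZ: the mean value for pairs of shifts
-/

set_option autoImplicit false

open scoped BigOperators
open Finset MeasureTheory

namespace Pool.Agent.H14.KS2

open Pool.Agent.H98.KS Pool.Agent.H85.KS2

theorem zz_alg (s : ℕ) (S : Finset ℤ) (V : ℤ → ℝ) :
    (∑ h ∈ S, V h ^ (s + 1)) ^ 2 ≤ ∑ h ∈ S, ∑ h' ∈ S, V h ^ (2 * s) * V h' ^ 2 := by
  have h1 : (∑ h ∈ S, V h ^ (s + 1)) ^ 2 =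
      ∑ h ∈ S, ∑ h' ∈ S, V h ^ (s + 1) * V h' ^ (s + 1) := by
    rw [sq, Finset.sum_mul_sum]
  have h2 : ∀ h h' : ℤ, V h ^ (s + 1) * V h' ^ (s + 1) ≤
      (V h ^ (2 * s) * V h' ^ 2 + V h' ^ (2 * s) * V h ^ 2) / 2 := by
    intro h h'
    have h3 := sq_nonneg (V h ^ s * V h' - V h * V h' ^ s)
    have h4 : (V h ^ s * V h' - V h * V h' ^ s) ^ 2 =
        V h ^ (2 * s) * V h' ^ 2 + V h' ^ (2 * s) * V h ^ 2 -
          2 * (V h ^ (s + 1) * V h' ^ (s + 1)) := by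
      rw [pow_mul', pow_mul', pow_succ, pow_succ]
      ring
    linarith
  have h5 : ∑ h ∈ S, ∑ h' ∈ S, V h' ^ (2 * s) * V h ^ 2 =
      ∑ h ∈ S, ∑ h' ∈ S, V h ^ (2 * s) * V h' ^ 2 := Finset.sum_comm
  rw [h1]
  calc ∑ h ∈ S, ∑ h' ∈ S, V h ^ (s + 1) * V h' ^ (s + 1)
      ≤ ∑ h ∈ S, ∑ h' ∈ S, (V h ^ (2 * s) * V h' ^ 2 + V h' ^ (2 * s) * V h ^ 2) / 2 :=
        Finset.sum_le_sum fun h _ => Finset.sum_le_sum fun h' _ => h2 h h'
    _ = (∑ h ∈ S, ∑ h' ∈ S, V h ^ (2 * s) * V h' ^ 2 +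
          ∑ h ∈ S, ∑ h' ∈ S, V h' ^ (2 * s) * V h ^ 2) / 2 := by
        simp only [← Finset.sum_div, Finset.sum_add_distrib]
    _ = ∑ h ∈ S, ∑ h' ∈ S, V h ^ (2 * s) * V h' ^ 2 := by
        rw [h5]
        ring

theorem ks2_ZZ (hV2 : T_V2) (hLG : T_LG) (hVM : T_VM) (hCTP : T_CTP) (hDV : T_DV) : T_ZZ := by
  intro k s hk hs hMV ε hε
  have he : 0 < ε / 4 := by positivity
  obtain ⟨C1, hC1, h1⟩ := hMV (ε / 4) he
  obtain ⟨C2, hC2, h2⟩ := hDV k hk (ε / 4) he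
  obtain ⟨C3, hC3, h3⟩ := hLG (2 * s + 2) (ε / 4) he
  refine ⟨C3 * C1 * C2, by positivity, ?_⟩
  intro L hL
  have hL1 : (1 : ℝ) ≤ L := by exact_mod_cast hL
  have hL0 : (0 : ℝ) < L := by linarith
  have hc : ∀ h : ℤ, Continuous fun θ => VV k L θ h := fun h => (hV2 k L h hL).2
  have hLG0 : 0 ≤ LG L := by
    unfold LG
    have : 0 ≤ Real.log (16 * (L : ℝ) + 1) := Real.log_nonneg (by linarith)
    linarith
  have hint : ∀ h h' : ℤ, IntervalIntegrable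
      (fun θ => VV k L θ h ^ (2 * s) * VV k L θ h' ^ 2) volume 0 1 := fun h h' =>
    (((hc h).pow _).mul ((hc h').pow _)).intervalIntegrable _ _
  have hstep : ∫ θ in (0 : ℝ)..1, ZV k L (s + 1) θ ^ 2 ≤
      ∑ h ∈ HH L, ∑ h' ∈ HH L, ∫ θ in (0 : ℝ)..1, VV k L θ h ^ (2 * s) * VV k L θ h' ^ 2 := by
    have h5 : ∑ h ∈ HH L, ∑ h' ∈ HH L,
        ∫ θ in (0 : ℝ)..1, VV k L θ h ^ (2 * s) * VV k L θ h' ^ 2 =
        ∫ θ in (0 : ℝ)..1, ∑ h ∈ HH L, ∑ h' ∈ HH L,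
          VV k L θ h ^ (2 * s) * VV k L θ h' ^ 2 := by
      rw [intervalIntegral.integral_finsetSum]
      · refine Finset.sum_congr rfl fun h _ => ?_
        rw [intervalIntegral.integral_finsetSum]
        intro h' _
        exact hint h h'
      · intro h _
        exact (continuous_finsetSum _ fun h' _ =>
          ((hc h).pow _).mul ((hc h').pow _)).intervalIntegrable _ _
    rw [h5]
    refine intervalIntegral.integral_mono_on (by norm_num) ?_ ?_ ?_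
    · refine Continuous.intervalIntegrable ?_ _ _
      unfold ZV
      exact (continuous_finsetSum _ fun h _ => (hc h).pow _).pow _
    · refine Continuous.intervalIntegrable ?_ _ _
      exact continuous_finsetSum _ fun h _ => continuous_finsetSum _ fun h' _ =>
        ((hc h).pow _).mul ((hc h').pow _)
    · intro θ _
      exact zz_alg s (HH L) fun h => VV k L θ h
  have hP : 0 ≤ LG L ^ (2 * s + 2) := by positivity
  have hterm : ∀ h ∈ HH L, ∀ h' ∈ HH L,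
      ∫ θ in (0 : ℝ)..1, VV k L θ h ^ (2 * s) * VV k L θ h' ^ 2 ≤
        (C3 * (L : ℝ) ^ (ε / 4) * (C1 * (L : ℝ) ^ (2 * (s : ℝ) - k + 1 + ε / 4))) *
          (DD k L h h' : ℝ) := by
    intro h hh h' _
    have h6 := hVM k s L h h' hs hL
    have h7 : (NP k s L h h' : ℝ) ≤ (rr s (JJ L) (dl k h) : ℝ) * (DD k L h h' : ℝ) := by
      exact_mod_cast hCTP k s L h h'
    have h8 := h1 L hL h hh
    have h9 := h3 L hL
    calc ∫ θ in (0 : ℝ)..1, VV k L θ h ^ (2 * s) * VV k L θ h' ^ 2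
        ≤ LG L ^ (2 * s + 2) * NP k s L h h' := h6
      _ ≤ LG L ^ (2 * s + 2) * ((rr s (JJ L) (dl k h) : ℝ) * (DD k L h h' : ℝ)) := by
          gcongr
      _ ≤ (C3 * (L : ℝ) ^ (ε / 4)) *
            ((C1 * (L : ℝ) ^ (2 * (s : ℝ) - k + 1 + ε / 4)) * (DD k L h h' : ℝ)) := by
          gcongr
      _ = _ := by ring
  calc ∫ θ in (0 : ℝ)..1, ZV k L (s + 1) θ ^ 2
      ≤ ∑ h ∈ HH L, ∑ h' ∈ HH L, ∫ θ in (0 : ℝ)..1, VV k L θ h ^ (2 * s) * VV k L θ h' ^ 2 :=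
        hstep
    _ ≤ ∑ h ∈ HH L, ∑ h' ∈ HH L,
          (C3 * (L : ℝ) ^ (ε / 4) * (C1 * (L : ℝ) ^ (2 * (s : ℝ) - k + 1 + ε / 4))) *
            (DD k L h h' : ℝ) :=
        Finset.sum_le_sum fun h hh => Finset.sum_le_sum fun h' hh' => hterm h hh h' hh'
    _ = (C3 * (L : ℝ) ^ (ε / 4) * (C1 * (L : ℝ) ^ (2 * (s : ℝ) - k + 1 + ε / 4))) *
          ∑ h ∈ HH L, ∑ h' ∈ HH L, (DD k L h h' : ℝ) := by
        simp only [Finset.mul_sum]
    _ ≤ (C3 * (L : ℝ) ^ (ε / 4) * (C1 * (L : ℝ) ^ (2 * (s : ℝ) - k + 1 + ε / 4))) *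
          (C2 * (L : ℝ) ^ (3 + ε / 4)) := by
        gcongr
        exact h2 L hL
    _ = C3 * C1 * C2 * ((L : ℝ) ^ (ε / 4) * (L : ℝ) ^ (2 * (s : ℝ) - k + 1 + ε / 4) *
          (L : ℝ) ^ (3 + ε / 4)) := by ring
    _ = C3 * C1 * C2 * (L : ℝ) ^ (2 * (s : ℝ) - k + 4 + 3 * (ε / 4)) := by
        rw [← Real.rpow_add hL0, ← Real.rpow_add hL0]
        congr 2
        ring
    _ ≤ C3 * C1 * C2 * (L : ℝ) ^ (2 * ((s + 1 : ℕ) : ℝ) + 2 - k + ε) := by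
        refine mul_le_mul_of_nonneg_left ?_ (by positivity)
        refine Real.rpow_le_rpow_of_exponent_le hL1 ?_
        push_cast
        linarith

end Pool.Agent.H14.KS2
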